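import Pool.Agent.Work.MP_db9399_oc_helper34.Num

/-!
# MP_db9399, OCB4, block GRD (helper34)
-/

set_option autoImplicit false

namespace Pool.Agent.Work.MP_db9399_oc_helper34

open Finset Classical
open Pool.Agent.Work.MP_db9399_all (nb)
open Pool.Agent.Work.MP_db9399_lt (us)
open Pool.Agent.Work.MP_db9399_da hiding qV
open Pool.Agent.Work.MP_db9399_xf
open Pool.Agent.Work.MP_db9399_x4
open Pool.Agent.Work.MP_db9399_oc

universe u

variable {V : Type u} [Fintype V] {N J : ℕ} {D : OD V N J}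
variable {q : Fin N → Bool → Bool → ℕ → ℕ}

/-- the slots of a colour in a quarter -/
noncomputable def SlF (D : OD V N J) (q : Fin N → Bool → Bool → ℕ → ℕ) (f : Sx N → V)
    (n : Fin N) (β i : Bool) (b : ℕ) : Finset V :=
  if D.X.P.ty n = Ty.B ∧ b < D.d + 2 ∧ D.kc n β i b ≠ 4 then
    (range (q n β i b)).image (fun k => f (n, β, i, b, k)) else ∅

theorem mem_SlF (hq : D.Dem q) {f : Sx N → V} {n : Fin N} {β i : Bool} {b : ℕ} {v : V} :
    v ∈ SlF D q f n β i b ↔ ∃ k, (n, β, i, b, k) ∈ RS D q ∧ f (n, β, i, b, k) = v := by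
  unfold SlF
  split_ifs with h
  · simp only [mem_image, mem_range]
    constructor
    · rintro ⟨k, hk, he⟩
      exact ⟨k, (mem_RS hq).2 ⟨h.1, h.2.1, hk, h.2.2⟩, he⟩
    · rintro ⟨k, hk, he⟩
      exact ⟨k, ((mem_RS hq).1 hk).2.2.1, he⟩
  · simp only [notMem_empty, false_iff, not_exists, not_and]
    intro k hk
    exact absurd ⟨((mem_RS hq).1 hk).1, ((mem_RS hq).1 hk).2.1, ((mem_RS hq).1 hk).2.2.2⟩ h

/-- from the greedy choice to the slots -/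
theorem slt_of {U : Finset V} {cR : V → ℕ} {rg τ : V → ℕ}
    {σ : Fin N → Bool → Bool → ℕ → ℕ → ℕ} (hq : D.Dem q) {f : Sx N → V}
    (hf : ∀ s ∈ RS D q, f s ∈ AS D U cR q rg τ σ s)
    (hc : ∀ s ∈ RS D q, ∀ s' ∈ RS D q, s ≠ s' → ¬ CF D s (f s) s' (f s')) :
    D.Slt U cR q rg τ σ (SlF D q f) := by
  have hfm : ∀ s ∈ RS D q, f s ∈ D.Av U cR s.1 s.2.1 s.2.2.1 s.2.2.2.1 := fun s hs =>
    (mem_filter.1 (hf s hs)).1
  have hfq : ∀ s ∈ RS D q, f s ∉ D.X.P.V0 ∧ D.X.P.pc (f s) = s.1 ∧ D.X.P.sd (f s) = s.2.1 ∧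
      D.X.P.pt (f s) = s.2.2.1 := fun s hs => mem_qV.1 (mem_filter.1 (hfm s hs)).1
  have hPot : ∀ s ∈ RS D q, D.Pot q τ σ (f s) s.2.2.2.1 := by
    intro s hs
    obtain ⟨b1, b2, b3, b4⟩ := (mem_RS hq).1 hs
    obtain ⟨a1, a2, a3, a4⟩ := hfq s hs
    have a5 := (mem_filter.1 (hf s hs)).2
    unfold OD.Pot
    refine ⟨⟨a1, by rw [a2]; exact b1⟩, ?_, s.2.2.2.2, ?_, ?_⟩
    · rw [a2, a3, a4]; exact b4
    · rw [a2, a3, a4]; exact b3
    · rw [a2, a3, a4]; exact a5.2.1.symm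
  constructor
  · intro n β i b v hv
    obtain ⟨k, hk, rfl⟩ := (mem_SlF hq).1 hv
    exact hfm _ hk
  · intro n β i b h1 h2 h3
    unfold SlF
    rw [if_pos ⟨h1, h2, h3⟩, card_image_of_injOn, card_range]
    intro k1 hk1 k2 hk2 he
    by_contra hne
    have m1 : (n, β, i, b, k1) ∈ RS D q := (mem_RS hq).2 ⟨h1, h2, mem_range.1 (mem_coe.1 hk1), h3⟩
    have m2 : (n, β, i, b, k2) ∈ RS D q := (mem_RS hq).2 ⟨h1, h2, mem_range.1 (mem_coe.1 hk2), h3⟩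
    refine hc _ m1 _ m2 ?_ (Or.inl ⟨rfl, rfl, rfl, he⟩)
    intro e
    simp only [Prod.mk.injEq, true_and] at e
    exact hne e
  · intro n β i b h
    unfold SlF
    rw [if_neg]
    rintro ⟨g1, g2, g3⟩
    rcases h with h | h | h
    · exact h g1
    · omega
    · exact g3 h
  · intro n β i b b' hbb
    rw [disjoint_left]
    intro v hv hv'
    obtain ⟨k, hk, he⟩ := (mem_SlF hq).1 hv
    obtain ⟨k', hk', he'⟩ := (mem_SlF hq).1 hv'
    refine hc _ hk _ hk' ?_ (Or.inl ⟨rfl, rfl, rfl, he.trans he'.symm⟩)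
    intro e
    simp only [Prod.mk.injEq, true_and] at e
    exact hbb e.1
  · intro n β i n' β' i' b v hv w hw hT
    obtain ⟨k, hk, rfl⟩ := (mem_SlF hq).1 hv
    obtain ⟨k', hk', rfl⟩ := (mem_SlF hq).1 hw
    by_cases he : (n, β, i, b, k) = (n', β', i', b, k')
    · rw [he] at hT
      exact hT.1.ne rfl
    · by_cases hcq : D.X.cq (f (n, β, i, b, k)) = D.X.cq (f (n', β', i', b, k'))
      · exact hc _ hk _ hk' he (Or.inr ⟨rfl, hT, hcq⟩)
      · have hn := (mem_filter.1 (hf _ hk)).2.2.2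
        exact hn ⟨f (n', β', i', b, k'), hT, fun e => hcq e.symm, hPot _ hk'⟩
  · intro n β i b v hv
    obtain ⟨k, hk, rfl⟩ := (mem_SlF hq).1 hv
    exact (mem_filter.1 (hf _ hk)).2.1
  · intro n β i b v hv
    obtain ⟨k, hk, rfl⟩ := (mem_SlF hq).1 hv
    exact hPot _ hk

/-- the count for a slot -/
theorem cnt {k : Con} {c' : ℝ} (hk : k.Ok) (h : Hyp k c' D) (hq : D.Dem q)
    {U : Finset V} {cR : V → ℕ} {rg τ : V → ℕ} {σ : Fin N → Bool → Bool → ℕ → ℕ → ℕ}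
    (hav : D.AvX U cR q)
    (hσ : ∀ n β i b k', σ n β i b k' < D.m0) (h1 : D.I1 U cR rg τ) (h2 : D.I2 q σ)
    (h4 : D.I4 c' q τ σ) (s : Sx N) (hs : s ∈ RS D q)
    (hκ : 0 < (D.sl s.1).κ) (hκ1 : (D.sl s.1).κ ≤ 1) (hζ : 0 < (D.sl s.1).ζ)
    (hζ1 : (D.sl s.1).ζ ≤ 1 / 100) (hε1 : (D.sl s.1).ε ≤ 1 / 10) (hd : 0 < D.d)
    (hΘ : Real.sqrt (D.sl s.1).θ * (1 + 8 * k.M * (((D.X1 + 5 * D.K + 5 : ℕ) : ℝ) + 1)) ≤
      (D.sl s.1).κ * (D.sl s.1).ζ / 10 ^ 5 / 4)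
    (hE1 : (D.d : ℝ) ^ (3 * c' / 8) ≤
      (D.sl s.1).κ * (D.sl s.1).ζ / 10 ^ 5 / 8 * ((D.d : ℝ) / D.m0))
    (hE2 : 4 * k.M * (((D.X1 + 5 * D.K + 5 : ℕ) : ℝ) + D.X0) * (Real.log D.d) ^ 2 ≤
      (D.sl s.1).κ * (D.sl s.1).ζ / 10 ^ 5 / 8 * ((D.d : ℝ) / D.m0)) :
    ∑ s' ∈ (RS D q).filter (fun s' => rk D s' ≤ rk D s), bl D σ s s' <
      ((AS D U cR q rg τ σ s).card : ℝ) := by
  have hm0 : 0 < D.m0 := lt_of_le_of_lt (Nat.zero_le _) (hσ s.1 false false 0 0)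
  have hm : (0 : ℝ) < D.m0 := by exact_mod_cast hm0
  have hdr : (0 : ℝ) < D.d := by exact_mod_cast hd
  obtain ⟨b1, b2, b3, b4⟩ := (mem_RS hq).1 hs
  have hne : (pV D.X.P s.1).Nonempty := h.pc.toPcD.bN s.1 b1
  have hsum : ∑ s' ∈ (RS D q).filter (fun s' => rk D s' ≤ rk D s), bl D σ s s' =
      ∑ s' ∈ (RS D q).filter (fun s' => rk D s' ≤ rk D s), (if sq D σ s s' then (1 : ℝ) else 0) +
      ∑ s' ∈ (RS D q).filter (fun s' => rk D s' ≤ rk D s), (if sm D s s' then wt D s s' else 0) := by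
    rw [← sum_add_distrib]; rfl
  have hc := sumc h hq hm0 hs hne
  have hcap := cap (U := U) (cR := cR) (rg := rg) h4 hσ hq hs
  have hA : (D.sl s.1).ζ / 50 * D.d ≤ ((D.Av U cR s.1 s.2.1 s.2.2.1 s.2.2.2.1).card : ℝ) :=
    hav.a1 _ _ _ _ b1 (by omega)
  have hj := hσ s.1 s.2.1 s.2.2.1 s.2.2.2.1 s.2.2.2.2
  have hqv := qV_ge h b1 s.2.1 s.2.2.1
  have hqv' : 2 / 5 * (D.d : ℝ) ≤
      ((Pool.Agent.Work.MP_db9399_xf.qV D.X s.1 s.2.1 s.2.2.1).card : ℝ) := by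
    refine le_trans ?_ hqv
    apply mul_le_mul_of_nonneg_right _ hdr.le
    linarith
  have hQ : (D.sl s.1).κ * D.d ≤ ((D.Qn s.1 (!s.2.2.1)).card : ℝ) :=
    (h.sel.Qc s.1 (Or.inr b1) (!s.2.2.1)).1
  have hlt : s.2.2.2.1 < D.d + 2 := b2
  -- the block of a slot
  have main : ∀ (cp ab : ℝ),
      ((cp = ((D.Av U cR s.1 s.2.1 s.2.2.1 s.2.2.2.1).card : ℝ) / (30 * D.m0) ∧
        ((Pool.Agent.Work.MP_db9399_xf.qV D.X s.1 s.2.1 s.2.2.1).card : ℝ) / 600 ≤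
          ((D.Av U cR s.1 s.2.1 s.2.2.1 s.2.2.2.1).card : ℝ) ∧
        ab ≤ 3 / 10 ^ 6 * ((Pool.Agent.Work.MP_db9399_xf.qV D.X s.1 s.2.1 s.2.2.1).card : ℝ) /
          D.m0) ∨
      (cp = ((D.Qn s.1 (!s.2.2.1)).card : ℝ) *
          ((D.Av U cR s.1 s.2.1 s.2.2.1 s.2.2.2.1).card : ℝ) / (23 / 10 * D.d * D.m0) ∧
        ((((Pool.Agent.Work.MP_db9399_xf.qV D.X s.1 s.2.1 s.2.2.1).card : ℝ) -
            (D.sl s.1).ζ / 10 * D.d ≤ ((D.Av U cR s.1 s.2.1 s.2.2.1 s.2.2.2.1).card : ℝ) ∧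
          ab ≤ 1 / 4 * ((D.Qn s.1 (!s.2.2.1)).card : ℝ) *
            ((Pool.Agent.Work.MP_db9399_xf.qV D.X s.1 s.2.1 s.2.2.1).card : ℝ) / (D.d * D.m0)) ∨
        ab ≤ Real.sqrt (D.sl s.1).θ * D.d / D.m0)) ∨
      (cp = 91 / 100 * ((D.Av U cR s.1 s.2.1 s.2.2.1 s.2.2.2.1).card : ℝ) / D.m0 ∧
        ((((Pool.Agent.Work.MP_db9399_xf.qV D.X s.1 s.2.1 s.2.2.1).card : ℝ) -
            (D.sl s.1).ζ / 10 * D.d ≤ ((D.Av U cR s.1 s.2.1 s.2.2.1 s.2.2.2.1).card : ℝ) ∧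
          ab ≤ 86 / 100 *
            ((Pool.Agent.Work.MP_db9399_xf.qV D.X s.1 s.2.1 s.2.2.1).card : ℝ) / D.m0) ∨
        ab ≤ Real.sqrt (D.sl s.1).θ * D.d / D.m0))) →
      ∑ s' ∈ (RS D q).filter (fun s' => rk D s' ≤ rk D s), (if sq D σ s s' then (1 : ℝ) else 0) ≤ ab →
      cp ≤ (((D.Av U cR s.1 s.2.1 s.2.2.1 s.2.2.2.1).filter
        (fun v => rg v = kcs D s ∧ τ v = sgs σ s)).card : ℝ) →
      ∑ s' ∈ (RS D q).filter (fun s' => rk D s' ≤ rk D s), bl D σ s s' <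
        ((AS D U cR q rg τ σ s).card : ℝ) := by
    intro cp ab hcs hab hcp
    have hnum := num_case hκ hκ1 hζ hζ1 hdr hm (Real.sqrt_nonneg _) hQ hqv' hA hcs
    have hfin := fin_ineq (X0 := (D.X0 : ℝ)) (L := (Real.log D.d) ^ 2) hκ hκ1 hζ hζ1 hε1 hdr hm
      (Nat.cast_nonneg k.M) hΘ hE1 hE2 hnum
    rw [hsum]
    linarith
  -- colours of the slots of the same quarter, class and block
  have hcl := kc_cases hq hs
  rcases hcl with hc1 | hc2 | hc3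
  · -- class 1
    obtain ⟨g1, g2, g3⟩ := kc_one D hc1
    refine main _ _ (Or.inl ⟨rfl, ?_, h2.l1 s.1 s.2.1 s.2.2.1 _ b1 hj⟩) (suma hq σ s _ ?_) ?_
    · exact hav.a2 _ _ _ _ b1 g1 g2
    · intro s' hs' hr hsq
      obtain ⟨e1, e2, e3, e4, e5⟩ := hsq
      have := (mem_RS hq).1 hs'
      refine mem_filter.2 ⟨mem_range.2 this.2.1, ?_⟩
      have h5 : kcs D s' = 1 := by rw [← e4]; exact hc1
      unfold kcs at h5
      rw [e1, e2, e3]; exact h5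
    · rw [hc1]
      exact h1.c1 s.1 s.2.1 s.2.2.1 s.2.2.2.1 _ b1 b2 hj hA
  · -- class 2
    by_cases hsp : s.2.2.2.1 ∈ D.Spc s.1
    · refine main _ _ (Or.inr (Or.inl ⟨rfl, Or.inr (h2.ls s.1 s.2.1 s.2.2.1 _ b1 hj)⟩))
        (suma hq σ s _ ?_) ?_
      · intro s' hs' hr hsq
        obtain ⟨e1, e2, e3, e4, e5⟩ := hsq
        have h5 : kcs D s' = 2 := by rw [← e4]; exact hc2
        have hrs : rk D s = 0 := by
          unfold rk; rw [if_neg (by rw [hc2]; decide), if_pos hsp]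
        have h6 : s'.2.2.2.1 ∈ D.Spc s'.1 := by
          by_contra h6
          unfold rk at hr hrs
          rw [if_neg (by rw [h5]; decide), if_neg h6, hrs] at hr
          omega
        refine mem_filter.2 ⟨by rw [e1]; exact h6, Or.inl ?_⟩
        unfold kcs at h5
        rw [e1, e2, e3]; exact h5
      · rw [hc2]
        exact h1.c2 s.1 s.2.1 s.2.2.1 s.2.2.2.1 _ b1 b2 hj hA
    · refine main _ _ (Or.inr (Or.inl ⟨rfl, Or.inl ⟨hav.a3 _ _ _ _ b1 b2 hsp,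
        h2.l2 s.1 s.2.1 s.2.2.1 _ b1 hj⟩⟩)) (suma hq σ s _ ?_) ?_
      · intro s' hs' hr hsq
        obtain ⟨e1, e2, e3, e4, e5⟩ := hsq
        have := (mem_RS hq).1 hs'
        refine mem_filter.2 ⟨mem_range.2 this.2.1, ?_⟩
        have h5 : kcs D s' = 2 := by rw [← e4]; exact hc2
        unfold kcs at h5
        rw [e1, e2, e3]; exact h5
      · rw [hc2]
        exact h1.c2 s.1 s.2.1 s.2.2.1 s.2.2.2.1 _ b1 b2 hj hA
  · -- class 3
    by_cases hsp : s.2.2.2.1 ∈ D.Spc s.1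
    · refine main _ _ (Or.inr (Or.inr ⟨rfl, Or.inr (h2.ls s.1 s.2.1 s.2.2.1 _ b1 hj)⟩))
        (suma hq σ s _ ?_) ?_
      · intro s' hs' hr hsq
        obtain ⟨e1, e2, e3, e4, e5⟩ := hsq
        have h5 : kcs D s' = 3 := by rw [← e4]; exact hc3
        have hrs : rk D s = 0 := by
          unfold rk; rw [if_neg (by rw [hc3]; decide), if_pos hsp]
        have h6 : s'.2.2.2.1 ∈ D.Spc s'.1 := by
          by_contra h6
          unfold rk at hr hrs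
          rw [if_neg (by rw [h5]; decide), if_neg h6, hrs] at hr
          omega
        refine mem_filter.2 ⟨by rw [e1]; exact h6, Or.inr ?_⟩
        unfold kcs at h5
        rw [e1, e2, e3]; exact h5
      · rw [hc3]
        exact h1.c3 s.1 s.2.1 s.2.2.1 s.2.2.2.1 _ b1 b2 hj hA
    · refine main _ _ (Or.inr (Or.inr ⟨rfl, Or.inl ⟨hav.a3 _ _ _ _ b1 b2 hsp,
        h2.l3 s.1 s.2.1 s.2.2.1 _ b1 hj⟩⟩)) (suma hq σ s _ ?_) ?_
      · intro s' hs' hr hsq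
        obtain ⟨e1, e2, e3, e4, e5⟩ := hsq
        have := (mem_RS hq).1 hs'
        refine mem_filter.2 ⟨mem_range.2 this.2.1, ?_⟩
        have h5 : kcs D s' = 3 := by rw [← e4]; exact hc3
        unfold kcs at h5
        rw [e1, e2, e3]; exact h5
      · rw [hc3]
        exact h1.c3 s.1 s.2.1 s.2.2.1 s.2.2.2.1 _ b1 b2 hj hA

/-- the block GRD -/
theorem stmt_GRD : Stmt_GRD.{u} := by
  intro k hk
  set Y : ℝ := ((k.X1 + 5 * KX4 k.C k.πk + 5 : ℕ) : ℝ) with hY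
  have hY0 : 0 ≤ Y := Nat.cast_nonneg _
  have hM0 : (0 : ℝ) ≤ k.M := Nat.cast_nonneg _
  have hB0 : 0 < 1 + 8 * (k.M : ℝ) * (Y + 1) := by positivity
  refine ⟨⟨fun _ => 1, fun _ _ => 1, fun _ _ _ => 1 / 10, fun _ _ _ _ => 1 / 100,
    fun _ _ κ _ ζ => (κ * ζ / 10 ^ 5 / 4 / (1 + 8 * k.M * (Y + 1))) ^ 2⟩, ?_, ?_⟩
  · refine ⟨fun _ _ => one_pos, fun _ _ _ _ => one_pos, fun _ _ _ _ _ _ => by norm_num,
      fun _ _ _ _ _ _ _ _ => by norm_num, fun ρ π κ ε ζ _ _ h3 _ h5 => ?_⟩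
    show 0 < (κ * ζ / 10 ^ 5 / 4 / (1 + 8 * k.M * (Y + 1))) ^ 2
    positivity
  · intro J S c' hS hc hc2
    choose d0 hd0 using fun s : Fin J =>
      big c' (8 * 10 ^ 5 / ((S s).κ * (S s).ζ) * (1 + 4 * k.M * (Y + 1))) hc
    refine ⟨(univ.sup d0) + 1, ?_⟩
    intro V _ N D hd hDS hyp U cR q rg τ σ hR hq hav hσ h1 h2 h3 h4
    have hd1 : 0 < D.d := by omega
    by_cases hVe : Nonempty V
    swap
    · refine ⟨fun _ _ _ _ => ∅, ?_⟩
      constructor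
      · intro n β i b; exact empty_subset _
      · intro n β i b hn
        obtain ⟨v, _⟩ := hyp.pc.toPcD.bN n hn
        exact absurd ⟨v⟩ hVe
      · intro n β i b _; rfl
      · intro n β i b b' _; exact disjoint_empty_left _
      · intro n β i n' β' i' b v hv; simp at hv
      · intro n β i b v hv; simp at hv
      · intro n β i b v hv; simp at hv
    have hsl : ∀ n, D.sl n = S (D.X.sc n) := by
      intro n; unfold OD.sl; rw [hDS]
    have hYD : ((D.X1 + 5 * D.K + 5 : ℕ) : ℝ) = Y := by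
      rw [hY, hyp.X1, hyp.K]
    have hdr : (0 : ℝ) < D.d := by exact_mod_cast hd1
    have hcnt : ∀ s ∈ RS D q,
        ∑ s' ∈ (RS D q).filter (fun s' => rk D s' ≤ rk D s), bl D σ s s' <
          ((AS D U cR q rg τ σ s).card : ℝ) := by
      intro s hs
      have hm0 : 0 < D.m0 := lt_of_le_of_lt (Nat.zero_le _) (hσ s.1 false false 0 0)
      have hm : (0 : ℝ) < D.m0 := by exact_mod_cast hm0
      have hA := hS (D.X.sc s.1)
      rw [← hsl] at hA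
      have hle : d0 (D.X.sc s.1) ≤ D.d := by
        have := Finset.le_sup (f := d0) (mem_univ (D.X.sc s.1))
        omega
      obtain ⟨hb1, hb2, hb3⟩ := hd0 (D.X.sc s.1) D.d hle
      rw [← hsl] at hb1 hb2
      have hκ := hA.κ.1
      have hκ1 : (D.sl s.1).κ ≤ 1 := hA.κ.2
      have hζ := hA.ζ.1
      have hζ1 : (D.sl s.1).ζ ≤ 1 / 100 := hA.ζ.2
      have hε1 : (D.sl s.1).ε ≤ 1 / 10 := hA.ε.2
      have hθ : (D.sl s.1).θ ≤ ((D.sl s.1).κ * (D.sl s.1).ζ / 10 ^ 5 / 4 /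
        (1 + 8 * k.M * (Y + 1))) ^ 2 := hA.θ.2
      -- the number of blocks
      have hdm : (D.d : ℝ) ^ (c' / 2) ≤ (D.d : ℝ) / D.m0 := by
        rw [le_div_iff₀ hm]
        have h5 : (D.m0 : ℝ) ≤ (D.d : ℝ) ^ (1 - c' / 2) := by
          rw [hyp.m0]; exact Nat.floor_le (by positivity)
        calc (D.d : ℝ) ^ (c' / 2) * D.m0 ≤ (D.d : ℝ) ^ (c' / 2) * (D.d : ℝ) ^ (1 - c' / 2) :=
              mul_le_mul_of_nonneg_left h5 (by positivity)
          _ = (D.d : ℝ) := by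
              rw [← Real.rpow_add hdr]
              rw [show c' / 2 + (1 - c' / 2) = 1 by ring, Real.rpow_one]
      have hX0 : (D.X0 : ℝ) ≤ (D.d : ℝ) ^ (c' / 4) := by
        rw [hyp.X0]; exact Nat.floor_le (by positivity)
      have hkz : 0 < (D.sl s.1).κ * (D.sl s.1).ζ := by positivity
      have hM4 : 0 ≤ 4 * (k.M : ℝ) * (Y + 1) := by positivity
      refine cnt hk hyp hq hav hσ h1 h2 h4 s hs hκ hκ1 hζ hζ1 hε1 hd1 ?_ ?_ ?_
      · rw [hYD]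
        have h6 : Real.sqrt (D.sl s.1).θ ≤ (D.sl s.1).κ * (D.sl s.1).ζ / 10 ^ 5 / 4 /
            (1 + 8 * k.M * (Y + 1)) := by
          rw [Real.sqrt_le_left (by positivity)]
          exact hθ
        rwa [le_div_iff₀ hB0] at h6
      · have h7 : 8 * 10 ^ 5 / ((D.sl s.1).κ * (D.sl s.1).ζ) * (D.d : ℝ) ^ (3 * c' / 8) ≤
            (D.d : ℝ) / D.m0 := by
          refine le_trans ?_ (le_trans hb1 hdm)
          apply mul_le_mul_of_nonneg_right _ (by positivity)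
          have h8 : (0 : ℝ) < 8 * 10 ^ 5 / ((D.sl s.1).κ * (D.sl s.1).ζ) := by positivity
          nlinarith
        have e : (D.d : ℝ) ^ (3 * c' / 8) = (D.sl s.1).κ * (D.sl s.1).ζ / 10 ^ 5 / 8 *
            (8 * 10 ^ 5 / ((D.sl s.1).κ * (D.sl s.1).ζ) * (D.d : ℝ) ^ (3 * c' / 8)) := by
          field_simp
        rw [e]
        exact mul_le_mul_of_nonneg_left h7 (by positivity)
      · rw [hYD]
        have hL : 0 ≤ (Real.log D.d) ^ 2 := sq_nonneg _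
        have hp4 : 0 ≤ (D.d : ℝ) ^ (c' / 4) := by positivity
        have h7 : 8 * 10 ^ 5 / ((D.sl s.1).κ * (D.sl s.1).ζ) *
            (4 * k.M * (Y + D.X0) * (Real.log D.d) ^ 2) ≤ (D.d : ℝ) / D.m0 := by
          refine le_trans ?_ (le_trans hb2 hdm)
          have h8 : (0 : ℝ) < 8 * 10 ^ 5 / ((D.sl s.1).κ * (D.sl s.1).ζ) := by positivity
          rw [mul_assoc (8 * 10 ^ 5 / ((D.sl s.1).κ * (D.sl s.1).ζ))]
          apply mul_le_mul_of_nonneg_left _ h8.le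
          have h9 : Y + D.X0 ≤ (Y + 1) * (1 + (D.d : ℝ) ^ (c' / 4)) := by nlinarith
          calc 4 * (k.M : ℝ) * (Y + D.X0) * (Real.log D.d) ^ 2
              ≤ 4 * (k.M : ℝ) * ((Y + 1) * (1 + (D.d : ℝ) ^ (c' / 4))) * (Real.log D.d) ^ 2 := by
                apply mul_le_mul_of_nonneg_right _ hL
                exact mul_le_mul_of_nonneg_left h9 (by positivity)
            _ = (4 * k.M * (Y + 1)) * ((1 + (D.d : ℝ) ^ (c' / 4)) * (Real.log D.d) ^ 2) := by ring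
            _ ≤ (1 + 4 * k.M * (Y + 1)) * ((1 + (D.d : ℝ) ^ (c' / 4)) * (Real.log D.d) ^ 2) := by
                apply mul_le_mul_of_nonneg_right _ (by positivity)
                linarith
        have e : 4 * k.M * (Y + D.X0) * (Real.log D.d) ^ 2 =
            (D.sl s.1).κ * (D.sl s.1).ζ / 10 ^ 5 / 8 *
            (8 * 10 ^ 5 / ((D.sl s.1).κ * (D.sl s.1).ζ) *
              (4 * k.M * (Y + D.X0) * (Real.log D.d) ^ 2)) := by
          field_simp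
        rw [e]
        exact mul_le_mul_of_nonneg_left h7 (by positivity)
    have hm0' : RS D q = ∅ ∨ 0 < D.m0 := by
      rcases (RS D q).eq_empty_or_nonempty with he | ⟨s, _⟩
      · exact Or.inl he
      · exact Or.inr (lt_of_le_of_lt (Nat.zero_le _) (hσ s.1 false false 0 0))
    obtain ⟨f, hf, hcf⟩ := greedy (RS D q) (rk D) (AS D U cR q rg τ σ) (CF D) (bl D σ)
      (CF_symm D) (bl0 D σ) (by
        intro s hs s' hs' v' hv'
        have hm0 : 0 < D.m0 := lt_of_le_of_lt (Nat.zero_le _) (hσ s.1 false false 0 0)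
        exact conf hk hyp hq hm0 hσ h3 s hs s' hs' v' hv') hcnt
    exact ⟨_, slt_of hq hf hcf⟩

end Pool.Agent.Work.MP_db9399_oc_helper34
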