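import Pool.Agent.Work.MP_db9399_oc_helper34.Sumc

/-!
# MP_db9399, OCB4, block GRD: conflicts and capacities (helper34)
-/

set_option autoImplicit false

namespace Pool.Agent.Work.MP_db9399_oc_helper34

open Finset Classical
open Pool.Agent.Work.MP_db9399_all (nb)
open Pool.Agent.Work.MP_db9399_lt (us)
open Pool.Agent.Work.MP_db9399_da hiding qV
open Pool.Agent.Work.MP_db9399_xf
open Pool.Agent.Work.MP_db9399_x4
open Pool.Agent.Work.MP_db9399_oc

universe u

variable {V : Type u} [Fintype V] {N J : ℕ} {D : OD V N J}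
variable {q : Fin N → Bool → Bool → ℕ → ℕ}

theorem conf {k : Con} {c' : ℝ} (hk : k.Ok) (h : Hyp k c' D) (hq : D.Dem q) (hm0 : 0 < D.m0)
    {U : Finset V} {cR : V → ℕ} {rg τ : V → ℕ} {σ : Fin N → Bool → Bool → ℕ → ℕ → ℕ}
    (hσ : ∀ n β i b k', σ n β i b k' < D.m0) (h3 : D.I3 τ)
    (s : Sx N) (hs : s ∈ RS D q) (s' : Sx N) (hs' : s' ∈ RS D q) (v' : V)
    (hv' : v' ∈ AS D U cR q rg τ σ s') :
    (((AS D U cR q rg τ σ s).filter (fun v => CF D s v s' v')).card : ℝ) ≤ bl D σ s s' := by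
  have hm : (0 : ℝ) < D.m0 := by exact_mod_cast hm0
  obtain ⟨b1, b2, b3, b4⟩ := (mem_RS hq).1 hs
  obtain ⟨c1, c2, c3, c4⟩ := (mem_RS hq).1 hs'
  have hv'2 := mem_filter.1 hv'
  have hv'3 := mem_filter.1 (show v' ∈ D.Av U cR s'.1 s'.2.1 s'.2.2.1 s'.2.2.2.1 from hv'2.1)
  have hv'4 := mem_qV.1 hv'3.1
  set A1 := (AS D U cR q rg τ σ s).filter (fun v => s.1 = s'.1 ∧ s.2.1 = s'.2.1 ∧
    s.2.2.1 = s'.2.2.1 ∧ v = v') with hA1
  set A2 := (AS D U cR q rg τ σ s).filter (fun v => s.2.2.2.1 = s'.2.2.2.1 ∧ Te D.G D.X v v' ∧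
    D.X.cq v = D.X.cq v') with hA2
  have hsub : (AS D U cR q rg τ σ s).filter (fun v => CF D s v s' v') ⊆ A1 ∪ A2 := by
    intro v hv
    have := mem_filter.1 hv
    rcases this.2 with h' | h'
    · exact mem_union_left _ (mem_filter.2 ⟨this.1, h'⟩)
    · exact mem_union_right _ (mem_filter.2 ⟨this.1, h'⟩)
  have hle : (((AS D U cR q rg τ σ s).filter (fun v => CF D s v s' v')).card : ℝ) ≤
      (A1.card : ℝ) + A2.card := by
    exact_mod_cast le_trans (card_le_card hsub) (card_union_le _ _)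
  have hA1c : (A1.card : ℝ) ≤ if sq D σ s s' then (1 : ℝ) else 0 := by
    rcases A1.eq_empty_or_nonempty with he | ⟨v, hv⟩
    · rw [he]; split_ifs <;> simp
    · have hv1 := mem_filter.1 hv
      have hv2 := mem_filter.1 (show v ∈ AS D U cR q rg τ σ s from hv1.1)
      have hsq : sq D σ s s' := by
        obtain ⟨e1, e2, e3, e4⟩ := hv1.2
        refine ⟨e1, e2, e3, ?_, ?_⟩
        · rw [← hv2.2.1, e4, hv'2.2.1]
        · rw [← hv2.2.2.1, e4, hv'2.2.2.1]
      rw [if_pos hsq]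
      have : A1 ⊆ {v'} := by
        intro w hw
        exact mem_singleton.2 (mem_filter.1 hw).2.2.2.2
      have := card_le_card this
      rw [card_singleton] at this
      exact_mod_cast this
  have hA2c : (A2.card : ℝ) ≤ if sm D s s' then wt D s s' else 0 := by
    rcases A2.eq_empty_or_nonempty with he | ⟨v, hv⟩
    · rw [he]
      have := wt0 D s s'
      split_ifs <;> simp [this]
    · have hv1 := mem_filter.1 hv
      have hv2 := mem_filter.1 (show v ∈ AS D U cR q rg τ σ s from hv1.1)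
      have hv3 := mem_filter.1 (show v ∈ D.Av U cR s.1 s.2.1 s.2.2.1 s.2.2.2.1 from hv2.1)
      have hv4 := mem_qV.1 hv3.1
      obtain ⟨e1, e2, e3⟩ := hv1.2
      have hsm : sm D s s' := ⟨e1, v, v', hv4.1, hv'4.1, hv4.2.1, hv'4.2.1, e3⟩
      rw [if_pos hsm]
      have hsl : D.sl s.1 = D.sl s'.1 := sc_eq h hsm.2
      -- the neighbours in the block
      have hj : sgs σ s < D.m0 := hσ _ _ _ _ _
      have hn := h3.ngh v' s.1 s.2.1 s.2.2.1 s.2.2.2.1 (sgs σ s) b1 b2 hj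
      have hA2s : A2 ⊆ (Pool.Agent.Work.MP_db9399_xf.qV D.X s.1 s.2.1 s.2.2.1).filter
          (fun w => Te D.G D.X v' w ∧ D.fr w s.2.2.2.1 ∧ τ w = sgs σ s) := by
        intro w hw
        have w1 := mem_filter.1 hw
        have w2 := mem_filter.1 (show w ∈ AS D U cR q rg τ σ s from w1.1)
        have w3 := mem_filter.1 (show w ∈ D.Av U cR s.1 s.2.1 s.2.2.1 s.2.2.2.1 from w2.1)
        obtain ⟨f1, f2, f3⟩ := w1.2
        exact mem_filter.2 ⟨w3.1, ⟨f2.1.symm, f2.2.2, f2.2.1⟩, w3.2.1, w2.2.2.1⟩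
      have hdg : (((Pool.Agent.Work.MP_db9399_xf.qV D.X s.1 s.2.1 s.2.2.1).filter
          (fun w => Te D.G D.X v' w ∧ D.fr w s.2.2.2.1)).card : ℝ) ≤
          D.dg v' s.1 s.2.1 s.2.2.2.1 := by
        unfold OD.dg
        norm_cast
        apply card_le_card
        intro w hw
        have w1 := mem_filter.1 hw
        exact mem_filter.2 ⟨(mem_filter.1 w1.1).1, w1.2⟩
      have hdt : (D.dg v' s.1 s.2.1 s.2.2.2.1 : ℝ) ≤ Real.sqrt (D.sl s.1).θ * D.d := by
        have ht := hv'3.2.2.1.thin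
        rw [hv'4.2.1, ← hsl] at ht
        refine le_trans ?_ ht
        unfold OD.dg
        norm_cast
        apply card_le_card
        intro w hw
        have w1 := mem_filter.1 hw
        unfold nb
        exact mem_filter.2 ⟨mem_univ _, w1.2.1.1⟩
      have hdk : kcs D s = 1 ∧ kcs D s' = 1 → (D.dg v' s.1 s.2.1 s.2.2.2.1 : ℝ) ≤
          Real.sqrt (D.sl s.1).θ * D.d / ((nds D s' : ℝ) + nds D s) := by
        rintro ⟨k1, k2⟩
        obtain ⟨g1, g2, g3⟩ := kc_one D k1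
        obtain ⟨g4, g5, g6⟩ := kc_one D k2
        have hK : D.K ≤ D.X1 := by
          have := hk.XK
          rw [h.K, h.X1]; omega
        have hnv : D.ndv v' s'.2.2.2.1 = nds D s' := by
          unfold OD.ndv nds
          rw [hv'4.2.1, hv'4.2.2.1]
        have ht := hv'3.2.2.1.dg s.1 s.2.1 b1 ⟨v, mem_pV.2 ⟨hv4.1, hv4.2.1⟩, e3⟩
          (by rw [hnv]; unfold nds; omega) (by rw [← e1]; omega)
        rw [hnv, hv'4.2.1, ← hsl, ← e1] at ht
        have hpos : (0 : ℝ) < (nds D s' : ℝ) + nds D s := by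
          have : 0 < nds D s' := by unfold nds; omega
          positivity
        rw [le_div_iff₀ hpos]
        exact ht
      have hAle : (A2.card : ℝ) ≤ 2 * (D.dg v' s.1 s.2.1 s.2.2.2.1 : ℝ) / D.m0 +
          (Real.log D.d) ^ 2 := by
        have h5 : (A2.card : ℝ) ≤ (((Pool.Agent.Work.MP_db9399_xf.qV D.X s.1 s.2.1 s.2.2.1).filter
          (fun w => Te D.G D.X v' w ∧ D.fr w s.2.2.2.1 ∧ τ w = sgs σ s)).card : ℝ) := by
          exact_mod_cast card_le_card hA2s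
        have h6 : 2 * (((Pool.Agent.Work.MP_db9399_xf.qV D.X s.1 s.2.1 s.2.2.1).filter
          (fun w => Te D.G D.X v' w ∧ D.fr w s.2.2.2.1)).card : ℝ) / D.m0 ≤
            2 * (D.dg v' s.1 s.2.1 s.2.2.2.1 : ℝ) / D.m0 := by
          apply div_le_div_of_nonneg_right _ hm.le
          linarith
        linarith
      refine le_trans hAle ?_
      unfold wt
      split_ifs with hcase
      · have := hdk hcase
        have h7 : 2 * (D.dg v' s.1 s.2.1 s.2.2.2.1 : ℝ) / D.m0 ≤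
          2 * (Real.sqrt (D.sl s.1).θ * D.d / ((nds D s' : ℝ) + nds D s)) / D.m0 := by
          apply div_le_div_of_nonneg_right _ hm.le
          linarith
        linarith
      · have h7 : 2 * (D.dg v' s.1 s.2.1 s.2.2.2.1 : ℝ) / D.m0 ≤
          2 * (Real.sqrt (D.sl s.1).θ * D.d) / D.m0 := by
          apply div_le_div_of_nonneg_right _ hm.le
          linarith
        linarith
  unfold bl
  linarith

/-- candidates without `PotN` -/
theorem cap {U : Finset V} {cR : V → ℕ} {rg τ : V → ℕ} {σ : Fin N → Bool → Bool → ℕ → ℕ → ℕ}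
    {c' : ℝ} (h4 : D.I4 c' q τ σ) (hσ : ∀ n β i b k', σ n β i b k' < D.m0)
    (hq : D.Dem q) {s : Sx N} (hs : s ∈ RS D q) :
    (((D.Av U cR s.1 s.2.1 s.2.2.1 s.2.2.2.1).filter
      (fun v => rg v = kcs D s ∧ τ v = sgs σ s)).card : ℝ) ≤
      (AS D U cR q rg τ σ s).card + (D.d : ℝ) ^ (3 * c' / 8) := by
  obtain ⟨b1, b2, b3, b4⟩ := (mem_RS hq).1 hs
  have hp := h4.pot s.1 s.2.1 s.2.2.1 s.2.2.2.1 (sgs σ s) b1 b2 (hσ _ _ _ _ _)
  have hsub : (D.Av U cR s.1 s.2.1 s.2.2.1 s.2.2.2.1).filter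
      (fun v => rg v = kcs D s ∧ τ v = sgs σ s) ⊆ (AS D U cR q rg τ σ s) ∪
        ((Pool.Agent.Work.MP_db9399_xf.qV D.X s.1 s.2.1 s.2.2.1).filter
          (fun v => τ v = sgs σ s ∧ D.PotN q τ σ v s.2.2.2.1)) := by
    intro v hv
    have h1 := mem_filter.1 hv
    by_cases hp : D.PotN q τ σ v s.2.2.2.1
    · exact mem_union_right _ (mem_filter.2 ⟨(mem_filter.1 h1.1).1, h1.2.2, hp⟩)
    · exact mem_union_left _ (mem_filter.2 ⟨h1.1, h1.2.1, h1.2.2, hp⟩)
  have := le_trans (card_le_card hsub) (card_union_le _ _)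
  have h2 : (((D.Av U cR s.1 s.2.1 s.2.2.1 s.2.2.2.1).filter
      (fun v => rg v = kcs D s ∧ τ v = sgs σ s)).card : ℝ) ≤
      ((AS D U cR q rg τ σ s).card : ℝ) + (((Pool.Agent.Work.MP_db9399_xf.qV D.X s.1 s.2.1 s.2.2.1).filter
          (fun v => τ v = sgs σ s ∧ D.PotN q τ σ v s.2.2.2.1)).card : ℝ) := by
    exact_mod_cast this
  linarith

end Pool.Agent.Work.MP_db9399_oc_helper34
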