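import Pool.Agent.Work.MP_db9399_oc.Interface

/-!
# MP_db9399, OCB4, block GRD: greedy choice (helper34)
-/

set_option autoImplicit false

namespace Pool.Agent.Work.MP_db9399_oc_helper34

open Finset Classical

/-- greedy choice in the order of `ρ` -/
theorem greedy {ι V : Type*} [Nonempty V] (R : Finset ι) (ρ : ι → ℕ)
    (A : ι → Finset V) (cf : ι → V → ι → V → Prop) (bl : ι → ι → ℝ)
    (hs : ∀ s v s' v', cf s v s' v' → cf s' v' s v) (h0 : ∀ s s', 0 ≤ bl s s')
    (hb : ∀ s ∈ R, ∀ s' ∈ R, ∀ v' ∈ A s', (((A s).filter (fun v => cf s v s' v')).card : ℝ) ≤ bl s s')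
    (h : ∀ s ∈ R, ∑ s' ∈ R.filter (fun s' => ρ s' ≤ ρ s), bl s s' < (A s).card) :
    ∃ f : ι → V, (∀ s ∈ R, f s ∈ A s) ∧ ∀ s ∈ R, ∀ s' ∈ R, s ≠ s' → ¬ cf s (f s) s' (f s') := by
  have key : ∀ R' : Finset ι, R' ⊆ R → ∃ f : ι → V, (∀ s ∈ R', f s ∈ A s) ∧
      ∀ s ∈ R', ∀ s' ∈ R', s ≠ s' → ¬ cf s (f s) s' (f s') := by
    intro R'
    induction R' using Finset.induction_on_max_value ρ with
    | empty => exact fun _ => ⟨fun _ => Classical.arbitrary V, by simp, by simp⟩
    | insert a s has hmax ih =>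
      intro hsub
      obtain ⟨f, hf, hc⟩ := ih (fun x hx => hsub (mem_insert_of_mem hx))
      have haR : a ∈ R := hsub (mem_insert_self a s)
      have hbad : ((s.biUnion (fun s' => (A a).filter (fun v => cf a v s' (f s')))).card : ℝ) <
          (A a).card := by
        calc ((s.biUnion (fun s' => (A a).filter (fun v => cf a v s' (f s')))).card : ℝ)
            ≤ ((∑ s' ∈ s, ((A a).filter (fun v => cf a v s' (f s'))).card : ℕ) : ℝ) := by
              exact_mod_cast card_biUnion_le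
          _ = ∑ s' ∈ s, (((A a).filter (fun v => cf a v s' (f s'))).card : ℝ) := by push_cast; rfl
          _ ≤ ∑ s' ∈ s, bl a s' := sum_le_sum fun s' hs' =>
              hb a haR s' (hsub (mem_insert_of_mem hs')) _ (hf s' hs')
          _ ≤ ∑ s' ∈ R.filter (fun s' => ρ s' ≤ ρ a), bl a s' :=
              sum_le_sum_of_subset_of_nonneg (fun x hx => mem_filter.2
                ⟨hsub (mem_insert_of_mem hx), hmax x hx⟩) (fun i _ _ => h0 a i)
          _ < (A a).card := h a haR
      have hlt : (s.biUnion (fun s' => (A a).filter (fun v => cf a v s' (f s')))).card <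
          (A a).card := by exact_mod_cast hbad
      obtain ⟨v, hv, hvn⟩ := exists_mem_notMem_of_card_lt_card hlt
      have hvn' : ∀ s' ∈ s, ¬ cf a v s' (f s') := by
        intro s' hs' hcf
        exact hvn (mem_biUnion.2 ⟨s', hs', mem_filter.2 ⟨hv, hcf⟩⟩)
      refine ⟨fun x => if x = a then v else f x, ?_, ?_⟩
      · intro x hx
        by_cases hxa : x = a
        · subst hxa; simpa using hv
        · have hxs : x ∈ s := by
            rcases mem_insert.1 hx with h' | h'
            · exact absurd h' hxa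
            · exact h'
          simpa [hxa] using hf x hxs
      · intro x hx y hy hxy
        by_cases hxa : x = a
        · have hya : y ≠ a := fun e => hxy (hxa.trans e.symm)
          have hys : y ∈ s := by
            rcases mem_insert.1 hy with h' | h'
            · exact absurd h' hya
            · exact h'
          simp only [hxa, hya, if_true, if_false]
          exact hvn' y hys
        · have hxs : x ∈ s := by
            rcases mem_insert.1 hx with h' | h'
            · exact absurd h' hxa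
            · exact h'
          by_cases hya : y = a
          · simp only [hxa, hya, if_true, if_false]
            exact fun hcf => hvn' x hxs (hs _ _ _ _ hcf)
          · have hys : y ∈ s := by
              rcases mem_insert.1 hy with h' | h'
              · exact absurd h' hya
              · exact h'
            simp only [hxa, hya, if_false]
            exact hc x hxs y hys hxy
  exact key R (Subset.refl R)

/-- asymptotics -/
theorem big (c' B : ℝ) (hc : 0 < c') : ∃ d0 : ℕ, ∀ d : ℕ, d0 ≤ d →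
    B * (d : ℝ) ^ (3 * c' / 8) ≤ (d : ℝ) ^ (c' / 2) ∧
    B * ((1 + (d : ℝ) ^ (c' / 4)) * (Real.log d) ^ 2) ≤ (d : ℝ) ^ (c' / 2) ∧ 1 ≤ d := by
  have ht : Filter.Tendsto (fun d : ℕ => (d : ℝ) ^ (c' / 8)) Filter.atTop Filter.atTop :=
    (tendsto_rpow_atTop (by positivity)).comp tendsto_natCast_atTop_atTop
  obtain ⟨d0, hd0⟩ := Filter.eventually_atTop.1
    (ht.eventually_ge_atTop (max |B| (|B| * (512 / c' ^ 2))))
  refine ⟨max d0 1, fun d hd => ?_⟩
  have hd1 : 1 ≤ d := le_trans (le_max_right _ _) hd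
  have hdr : (1 : ℝ) ≤ d := by exact_mod_cast hd1
  have hd' : (0 : ℝ) < d := by linarith
  have hy := hd0 d (le_trans (le_max_left _ _) hd)
  have hy1 : |B| ≤ (d : ℝ) ^ (c' / 8) := le_trans (le_max_left _ _) hy
  have hy2 : |B| * (512 / c' ^ 2) ≤ (d : ℝ) ^ (c' / 8) := le_trans (le_max_right _ _) hy
  have e1 : (d : ℝ) ^ (c' / 8) * (d : ℝ) ^ (3 * c' / 8) = (d : ℝ) ^ (c' / 2) := by
    rw [← Real.rpow_add hd']; congr 1; ring
  have e2 : (d : ℝ) ^ (c' / 4) * (d : ℝ) ^ (c' / 8) = (d : ℝ) ^ (3 * c' / 8) := by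
    rw [← Real.rpow_add hd']; congr 1; ring
  have e3 : (d : ℝ) ^ (c' / 16) * (d : ℝ) ^ (c' / 16) = (d : ℝ) ^ (c' / 8) := by
    rw [← Real.rpow_add hd']; congr 1; ring
  have p1 : 0 ≤ (d : ℝ) ^ (3 * c' / 8) := by positivity
  have hlog : Real.log d ≤ (d : ℝ) ^ (c' / 16) / (c' / 16) :=
    Real.log_le_rpow_div (by positivity) (by positivity)
  have hlog0 : 0 ≤ Real.log d := Real.log_nonneg hdr
  have hlog2 : (Real.log d) ^ 2 ≤ (d : ℝ) ^ (c' / 8) * (256 / c' ^ 2) := by
    calc (Real.log d) ^ 2 ≤ ((d : ℝ) ^ (c' / 16) / (c' / 16)) ^ 2 := by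
          exact pow_le_pow_left₀ hlog0 hlog 2
      _ = ((d : ℝ) ^ (c' / 16) * (d : ℝ) ^ (c' / 16)) * (256 / c' ^ 2) := by
          field_simp; ring
      _ = _ := by rw [e3]
  have hone : (1 : ℝ) ≤ (d : ℝ) ^ (c' / 4) := Real.one_le_rpow hdr (by positivity)
  refine ⟨?_, ?_, hd1⟩
  · calc B * (d : ℝ) ^ (3 * c' / 8) ≤ |B| * (d : ℝ) ^ (3 * c' / 8) :=
          mul_le_mul_of_nonneg_right (le_abs_self B) p1
      _ ≤ (d : ℝ) ^ (c' / 8) * (d : ℝ) ^ (3 * c' / 8) := mul_le_mul_of_nonneg_right hy1 p1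
      _ = _ := e1
  · have h1 : (1 + (d : ℝ) ^ (c' / 4)) * (Real.log d) ^ 2 ≤
        (512 / c' ^ 2) * (d : ℝ) ^ (3 * c' / 8) := by
      calc (1 + (d : ℝ) ^ (c' / 4)) * (Real.log d) ^ 2
          ≤ (2 * (d : ℝ) ^ (c' / 4)) * ((d : ℝ) ^ (c' / 8) * (256 / c' ^ 2)) := by
            apply mul_le_mul _ hlog2 (by positivity) (by positivity)
            linarith
        _ = (512 / c' ^ 2) * ((d : ℝ) ^ (c' / 4) * (d : ℝ) ^ (c' / 8)) := by ring
        _ = _ := by rw [e2]
    have h0 : 0 ≤ (1 + (d : ℝ) ^ (c' / 4)) * (Real.log d) ^ 2 := by positivity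
    calc B * ((1 + (d : ℝ) ^ (c' / 4)) * (Real.log d) ^ 2)
        ≤ |B| * ((1 + (d : ℝ) ^ (c' / 4)) * (Real.log d) ^ 2) :=
          mul_le_mul_of_nonneg_right (le_abs_self B) h0
      _ ≤ |B| * ((512 / c' ^ 2) * (d : ℝ) ^ (3 * c' / 8)) :=
          mul_le_mul_of_nonneg_left h1 (abs_nonneg B)
      _ = (|B| * (512 / c' ^ 2)) * (d : ℝ) ^ (3 * c' / 8) := by ring
      _ ≤ (d : ℝ) ^ (c' / 8) * (d : ℝ) ^ (3 * c' / 8) := mul_le_mul_of_nonneg_right hy2 p1
      _ = _ := e1

end Pool.Agent.Work.MP_db9399_oc_helper34
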