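import Pool.Agent.Work.MP_db9399_oc_helper34.Conf

/-!
# MP_db9399, OCB4, block GRD: the inequality (helper34)
-/

set_option autoImplicit false

namespace Pool.Agent.Work.MP_db9399_oc_helper34

open Finset Classical
open Pool.Agent.Work.MP_db9399_all (nb)
open Pool.Agent.Work.MP_db9399_lt (us)
open Pool.Agent.Work.MP_db9399_da hiding qV
open Pool.Agent.Work.MP_db9399_xf
open Pool.Agent.Work.MP_db9399_x4
open Pool.Agent.Work.MP_db9399_oc

universe u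

variable {V : Type u} [Fintype V] {N J : ℕ} {D : OD V N J}
variable {q : Fin N → Bool → Bool → ℕ → ℕ}

/-- the quarters have almost `d / 2` vertices -/
theorem qV_ge {k : Con} {c' : ℝ} (h : Hyp k c' D) {n : Fin N} (hn : D.X.P.ty n = Ty.B)
    (β i : Bool) : (1 / 2 - (D.sl n).ε) * D.d ≤
      ((Pool.Agent.Work.MP_db9399_xf.qV D.X n β i).card : ℝ) := by
  obtain ⟨v0, hv0⟩ := h.pc.toPcD.bN n hn
  have hv0' := mem_pV.1 hv0
  have hne : ∃ w, w ∈ sV D.X.P n (!β) := by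
    have hbE := h.pc.toPcD.bE n hn
    have hmem : v0 ∈ sV D.X.P n (D.X.P.sd v0) := by
      unfold sV; simp [hv0'.1, hv0'.2]
    have hpos : 0 < (sV D.X.P n (D.X.P.sd v0)).card := card_pos.2 ⟨v0, hmem⟩
    have hall : ∀ γ, 0 < (sV D.X.P n γ).card := by
      intro γ
      cases γ <;> cases hs : D.X.P.sd v0 <;> rw [hs] at hpos <;> omega
    exact card_pos.1 (hall (!β))
  obtain ⟨w, hw⟩ := hne
  have hw' : w ∉ D.X.P.V0 ∧ D.X.P.pc w = n ∧ D.X.P.sd w = !β := by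
    unfold sV at hw; simpa using hw
  have hbD := h.pc.toPcL.bB
  have hD := h.pc.toPcL.bD n hn ⟨w, hw'.1, hw'.2.1⟩ i
  have h1 := (abs_le.1 hD).1
  have hle : ((nb (bk D.G D.X.P n) ⟨w, hw'.1, hw'.2.1⟩ ∩ prt (ptn D.X.P n) i).card : ℝ) ≤
      ((Pool.Agent.Work.MP_db9399_xf.qV D.X n β i).card : ℝ) := by
    norm_cast
    refine card_le_card_of_injOn (fun v => v.1) ?_ ?_
    · intro v hv
      have hv1 := mem_inter.1 (mem_coe.1 hv)
      have ha := (mem_filter.1 (show v ∈ univ.filter _ from hv1.1)).2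
      have hp : D.X.P.pt v.1 = i := by
        have := hv1.2
        unfold prt at this
        simpa [ptn] using this
      have hb : (bulk D.G D.X.P).Adj w v.1 := ha
      obtain ⟨g1, g2, g3, g4, g5⟩ := hb
      have hne := g5 (by rw [hw'.2.1]; exact hn)
      refine mem_coe.2 (mem_qV.2 ⟨g3, v.2.2, ?_, hp⟩)
      rw [hw'.2.2] at hne
      cases hs : D.X.P.sd v.1 <;> rw [hs] at hne <;> cases β <;> simp_all
    · intro v1 _ v2 _ he
      exact Subtype.ext he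
  have : (D.sl n).ε = (D.S (D.X.sc n)).ε := rfl
  rw [this]
  linarith

/-- the final inequality -/
theorem fin_ineq {κ ζ ε Θ d m0 E1 L X0 Y M : ℝ} (hκ : 0 < κ) (hκ1 : κ ≤ 1) (hζ : 0 < ζ)
    (hζ1 : ζ ≤ 1 / 100) (hε1 : ε ≤ 1 / 10) (hd : 0 < d) (hm : 0 < m0) (hM : 0 ≤ M)
    (hΘ : Θ * (1 + 8 * M * (Y + 1)) ≤ κ * ζ / 10 ^ 5 / 4)
    (hE1 : E1 ≤ κ * ζ / 10 ^ 5 / 8 * (d / m0))
    (hE2 : 4 * M * (Y + X0) * L ≤ κ * ζ / 10 ^ 5 / 8 * (d / m0))
    {cp ab : ℝ} (hc : κ * ζ / 10 ^ 5 * (d / m0) ≤ cp - ab + Θ * (d / m0)) :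
    ab + 4 * M * (Y * (2 * (Θ * d) / m0 + L) + (2 * (Θ * d) / m0 + X0 * L)) + E1 < cp := by
  have hdm : 0 < d / m0 := by positivity
  have e : 4 * M * (Y * (2 * (Θ * d) / m0 + L) + (2 * (Θ * d) / m0 + X0 * L)) =
      8 * M * (Y + 1) * Θ * (d / m0) + 4 * M * (Y + X0) * L := by
    field_simp
    ring
  rw [e]
  have h1 := mul_le_mul_of_nonneg_right hΘ hdm.le
  have hpos : 0 < κ * ζ / 10 ^ 5 * (d / m0) := by positivity
  have e2 : Θ * (1 + 8 * M * (Y + 1)) * (d / m0) = Θ * (d / m0) + 8 * M * (Y + 1) * Θ * (d / m0) := by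
    ring
  rw [e2] at h1
  have e3 : κ * ζ / 10 ^ 5 / 4 * (d / m0) = κ * ζ / 10 ^ 5 * (d / m0) / 4 := by ring
  have e4 : κ * ζ / 10 ^ 5 / 8 * (d / m0) = κ * ζ / 10 ^ 5 * (d / m0) / 8 := by ring
  rw [e3] at h1
  rw [e4] at hE1 hE2
  linarith

/-- capacity and load, case by case -/
theorem num_case {κ ζ d m0 Θ Q A qv cp ab : ℝ} (hκ : 0 < κ) (hκ1 : κ ≤ 1) (hζ : 0 < ζ)
    (hζ1 : ζ ≤ 1 / 100) (hd : 0 < d) (hm : 0 < m0) (hΘ0 : 0 ≤ Θ)
    (hQ : κ * d ≤ Q) (hqv : 2 / 5 * d ≤ qv) (hA : ζ / 50 * d ≤ A)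
    (h : (cp = A / (30 * m0) ∧ qv / 600 ≤ A ∧ ab ≤ 3 / 10 ^ 6 * qv / m0) ∨
      (cp = Q * A / (23 / 10 * d * m0) ∧ ((qv - ζ / 10 * d ≤ A ∧ ab ≤ 1 / 4 * Q * qv / (d * m0)) ∨
        ab ≤ Θ * d / m0)) ∨
      (cp = 91 / 100 * A / m0 ∧ ((qv - ζ / 10 * d ≤ A ∧ ab ≤ 86 / 100 * qv / m0) ∨
        ab ≤ Θ * d / m0))) :
    κ * ζ / 10 ^ 5 * (d / m0) ≤ cp - ab + Θ * (d / m0) := by
  have hT : Θ * d / m0 = Θ * (d / m0) := by ring
  have hT0 : 0 ≤ Θ * (d / m0) := by positivity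
  have hκζ : κ * ζ ≤ ζ := by nlinarith
  have hκζ2 : κ * ζ ≤ κ / 100 := by nlinarith
  have hmi : 0 < 1 / m0 := by positivity
  rcases h with ⟨h1, h2, h3⟩ | ⟨h1, h2⟩ | ⟨h1, h2⟩
  · have e1 : cp = (A / 30) * (1 / m0) := by rw [h1]; field_simp
    have e2 : 3 / 10 ^ 6 * qv / m0 = (3 / 10 ^ 6 * qv) * (1 / m0) := by ring
    have e3 : κ * ζ / 10 ^ 5 * (d / m0) = (κ * ζ / 10 ^ 5 * d) * (1 / m0) := by ring
    rw [e2] at h3
    rw [e1, e3]
    have h4 : (κ * ζ / 10 ^ 5 * d) ≤ A / 30 - 3 / 10 ^ 6 * qv := by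
      have : κ * ζ / 10 ^ 5 * d ≤ 1 / 100 / 10 ^ 5 * d := by
        apply mul_le_mul_of_nonneg_right _ hd.le
        have : κ * ζ ≤ 1 / 100 := by linarith
        linarith
      linarith
    have := mul_le_mul_of_nonneg_right h4 hmi.le
    rw [sub_mul] at this
    linarith
  · have hQ0 : 0 < Q := lt_of_lt_of_le (by positivity) hQ
    have hr : κ / m0 ≤ Q / (d * m0) := by
      rw [div_le_div_iff₀ hm (by positivity)]
      nlinarith
    have e1 : cp = (Q / (d * m0)) * (10 / 23 * A) := by rw [h1]; field_simp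
    have e3 : κ * ζ / 10 ^ 5 * (d / m0) = (κ / m0) * (ζ / 10 ^ 5 * d) := by ring
    rcases h2 with ⟨h2, h3⟩ | h3
    · have e2 : 1 / 4 * Q * qv / (d * m0) = (Q / (d * m0)) * (1 / 4 * qv) := by ring
      rw [e2] at h3
      have h4 : (ζ / 10 ^ 5 * d) ≤ 10 / 23 * A - 1 / 4 * qv := by
        have : ζ * d ≤ 1 / 100 * d := mul_le_mul_of_nonneg_right hζ1 hd.le
        linarith
      have h5 : (κ / m0) * (ζ / 10 ^ 5 * d) ≤ (Q / (d * m0)) * (10 / 23 * A - 1 / 4 * qv) := by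
        apply mul_le_mul hr h4 (by positivity) (by positivity)
      rw [mul_sub] at h5
      rw [e1, e3]
      linarith
    · rw [hT] at h3
      have h4 : (ζ / 10 ^ 5 * d) ≤ 10 / 23 * A := by
        have : 0 < ζ * d := by positivity
        linarith
      have h5 : (κ / m0) * (ζ / 10 ^ 5 * d) ≤ (Q / (d * m0)) * (10 / 23 * A) := by
        apply mul_le_mul hr h4 (by positivity) (by positivity)
      rw [e1, e3]
      linarith
  · have e1 : cp = (91 / 100 * A) * (1 / m0) := by rw [h1]; ring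
    have e3 : κ * ζ / 10 ^ 5 * (d / m0) = (κ * ζ / 10 ^ 5 * d) * (1 / m0) := by ring
    have hkz : κ * ζ * d ≤ ζ * d := mul_le_mul_of_nonneg_right hκζ hd.le
    have hzd : 0 < ζ * d := by positivity
    rcases h2 with ⟨h2, h3⟩ | h3
    · have e2 : 86 / 100 * qv / m0 = (86 / 100 * qv) * (1 / m0) := by ring
      rw [e2] at h3
      have h4 : (κ * ζ / 10 ^ 5 * d) ≤ 91 / 100 * A - 86 / 100 * qv := by
        have : ζ * d ≤ 1 / 100 * d := mul_le_mul_of_nonneg_right hζ1 hd.le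
        linarith
      have := mul_le_mul_of_nonneg_right h4 hmi.le
      rw [sub_mul] at this
      rw [e1, e3]
      linarith
    · rw [hT] at h3
      have h4 : (κ * ζ / 10 ^ 5 * d) ≤ 91 / 100 * A := by linarith
      have := mul_le_mul_of_nonneg_right h4 hmi.le
      rw [e1, e3]
      linarith

end Pool.Agent.Work.MP_db9399_oc_helper34
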