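import Pool.Agent.Work.MP_db9399_oc_helper34.Sums

/-!
# MP_db9399, OCB4, block GRD: the slots of the same colour in a cluster (helper34)
-/

set_option autoImplicit false

namespace Pool.Agent.Work.MP_db9399_oc_helper34

open Finset Classical
open Pool.Agent.Work.MP_db9399_all (nb)
open Pool.Agent.Work.MP_db9399_lt (us)
open Pool.Agent.Work.MP_db9399_da hiding qV
open Pool.Agent.Work.MP_db9399_xf
open Pool.Agent.Work.MP_db9399_x4
open Pool.Agent.Work.MP_db9399_oc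

universe u

variable {V : Type u} [Fintype V] {N J : ℕ} {D : OD V N J}
variable {q : Fin N → Bool → Bool → ℕ → ℕ}

theorem mem_pV {X : XD V N J} {n : Fin N} {v : V} :
    v ∈ pV X.P n ↔ v ∉ X.P.V0 ∧ X.P.pc v = n := by
  unfold pV; simp

theorem mem_qV {X : XD V N J} {n : Fin N} {β i : Bool} {v : V} :
    v ∈ Pool.Agent.Work.MP_db9399_xf.qV X n β i ↔
      v ∉ X.P.V0 ∧ X.P.pc v = n ∧ X.P.sd v = β ∧ X.P.pt v = i := by
  unfold Pool.Agent.Work.MP_db9399_xf.qV sV; simp [and_assoc]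

/-- number of the pieces of a cluster -/
theorem cl_card {k : Con} {c' : ℝ} (h : Hyp k c' D) {n : Fin N} {v0 : V}
    (hv : v0 ∉ D.X.P.V0) (hn : D.X.P.pc v0 = n) :
    (univ.filter (fun m => SmC D.X n m)).card ≤ k.M := by
  have hne := h.pc.toPcD.cln v0 hv
  obtain ⟨j, hj⟩ := Option.ne_none_iff_exists'.1 hne
  refine le_trans (card_le_card ?_) (h.pc.toPcD.npc j)
  intro m hm
  obtain ⟨v, w, hv1, hw1, e1, e2, e3⟩ := (mem_filter.1 hm).2
  refine mem_filter.2 ⟨mem_univ _, w, hw1, e2, ?_⟩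
  rw [← e3, h.pc.toPcD.clp v v0 hv1 hv (e1.trans hn.symm), hj]

theorem sc_eq {k : Con} {c' : ℝ} (h : Hyp k c' D) {n m : Fin N} (hs : SmC D.X n m) :
    D.sl n = D.sl m := by
  obtain ⟨v, w, hv1, hw1, e1, e2, e3⟩ := hs
  unfold OD.sl
  rw [← e1, ← e2, h.pc.toPcD.scq v w hv1 hw1 e3]

/-- one quarter -/
theorem fib {k : Con} {c' : ℝ} (h : Hyp k c' D) (hq : D.Dem q) (hm0 : 0 < D.m0) {s : Sx N} (s0 : Sx N)
    (hs0 : s0 ∈ RS D q) (hr : rk D s0 ≤ rk D s) :
    (q s0.1 s0.2.1 s0.2.2.1 s0.2.2.2.1 : ℝ) * wt D s s0 ≤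
      ((D.X1 + 5 * D.K + 5 : ℕ) : ℝ) * (2 * (Real.sqrt (D.sl s.1).θ * D.d) / D.m0 +
        (Real.log D.d) ^ 2) + (2 * (Real.sqrt (D.sl s.1).θ * D.d) / D.m0 +
          D.X0 * (Real.log D.d) ^ 2) := by
  have hm : (0 : ℝ) < D.m0 := by exact_mod_cast hm0
  have hΘ : 0 ≤ Real.sqrt (D.sl s.1).θ * D.d := by positivity
  have hL : 0 ≤ (Real.log D.d) ^ 2 := sq_nonneg _
  obtain ⟨h1, h2, h3, h4⟩ := (mem_RS hq).1 hs0
  by_cases hk : kcs D s0 = 1
  · have hks : kcs D s = 1 := by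
      by_contra hks
      unfold rk at hr
      rw [if_pos hk, if_neg hks] at hr
      split_ifs at hr <;> omega
    obtain ⟨g1, g2, g3⟩ := kc_one D hk
    have hqn : (q s0.1 s0.2.1 s0.2.2.1 s0.2.2.2.1 : ℝ) ≤ (nds D s0 : ℝ) := by
      have := hq.p1 s0.1 h1 s0.2.1 s0.2.2.2.1 g1
      have h' : q s0.1 s0.2.1 s0.2.2.1 s0.2.2.2.1 ≤ D.nd s0.1 s0.2.1 s0.2.2.2.1 := by
        cases s0.2.2.1 <;> omega
      unfold nds
      exact_mod_cast h'
    have hX0 : (nds D s0 : ℝ) ≤ D.X0 := by unfold nds; exact_mod_cast g3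
    have hn0 : (0 : ℝ) < nds D s0 := by
      unfold nds
      have : 0 < D.nd s0.1 s0.2.1 s0.2.2.2.1 := by omega
      exact_mod_cast this
    have hns : (0 : ℝ) ≤ nds D s := Nat.cast_nonneg _
    unfold wt
    rw [if_pos ⟨hks, hk⟩]
    have hfr : (nds D s0 : ℝ) * (2 * (Real.sqrt (D.sl s.1).θ * D.d / ((nds D s0 : ℝ) + nds D s)) /
        D.m0) ≤ 2 * (Real.sqrt (D.sl s.1).θ * D.d) / D.m0 := by
      have e : (nds D s0 : ℝ) * (2 * (Real.sqrt (D.sl s.1).θ * D.d / ((nds D s0 : ℝ) + nds D s)) /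
        D.m0) = (2 * (Real.sqrt (D.sl s.1).θ * D.d) / D.m0) *
          ((nds D s0 : ℝ) / ((nds D s0 : ℝ) + nds D s)) := by
        field_simp
      rw [e]
      apply mul_le_of_le_one_right (by positivity)
      rw [div_le_one (by positivity)]
      linarith
    have hw : 0 ≤ 2 * (Real.sqrt (D.sl s.1).θ * D.d / ((nds D s0 : ℝ) + nds D s)) / D.m0 := by
      positivity
    have hY : 0 ≤ ((D.X1 + 5 * D.K + 5 : ℕ) : ℝ) * (2 * (Real.sqrt (D.sl s.1).θ * D.d) / D.m0 +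
        (Real.log D.d) ^ 2) := by positivity
    calc (q s0.1 s0.2.1 s0.2.2.1 s0.2.2.2.1 : ℝ) *
          (2 * (Real.sqrt (D.sl s.1).θ * D.d / ((nds D s0 : ℝ) + nds D s)) / D.m0 +
            (Real.log D.d) ^ 2)
        ≤ (nds D s0 : ℝ) *
          (2 * (Real.sqrt (D.sl s.1).θ * D.d / ((nds D s0 : ℝ) + nds D s)) / D.m0 +
            (Real.log D.d) ^ 2) := mul_le_mul_of_nonneg_right hqn (by positivity)
      _ = (nds D s0 : ℝ) * (2 * (Real.sqrt (D.sl s.1).θ * D.d / ((nds D s0 : ℝ) + nds D s)) /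
            D.m0) + (nds D s0 : ℝ) * (Real.log D.d) ^ 2 := by ring
      _ ≤ 2 * (Real.sqrt (D.sl s.1).θ * D.d) / D.m0 + D.X0 * (Real.log D.d) ^ 2 :=
          add_le_add hfr (mul_le_mul_of_nonneg_right hX0 hL)
      _ ≤ _ := by linarith
  · have hqY : (q s0.1 s0.2.1 s0.2.2.1 s0.2.2.2.1 : ℝ) ≤ ((D.X1 + 5 * D.K + 5 : ℕ) : ℝ) := by
      exact_mod_cast hq.q3 _ _ _ _ hk h4
    unfold wt
    rw [if_neg (fun h' => hk h'.2)]
    have hX : 0 ≤ 2 * (Real.sqrt (D.sl s.1).θ * D.d) / D.m0 + D.X0 * (Real.log D.d) ^ 2 := by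
      positivity
    have := mul_le_mul_of_nonneg_right hqY (show 0 ≤ 2 * (Real.sqrt (D.sl s.1).θ * D.d) / D.m0 +
      (Real.log D.d) ^ 2 by positivity)
    linarith

/-- the slots of the same colour in the cluster -/
theorem sumc {k : Con} {c' : ℝ} (h : Hyp k c' D) (hq : D.Dem q) (hm0 : 0 < D.m0) {s : Sx N}
    (hs : s ∈ RS D q) (hne : (pV D.X.P s.1).Nonempty) :
    ∑ s' ∈ (RS D q).filter (fun s' => rk D s' ≤ rk D s), (if sm D s s' then wt D s s' else 0) ≤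
      4 * k.M * (((D.X1 + 5 * D.K + 5 : ℕ) : ℝ) * (2 * (Real.sqrt (D.sl s.1).θ * D.d) / D.m0 +
        (Real.log D.d) ^ 2) + (2 * (Real.sqrt (D.sl s.1).θ * D.d) / D.m0 +
          D.X0 * (Real.log D.d) ^ 2)) := by
  set E : ℝ := ((D.X1 + 5 * D.K + 5 : ℕ) : ℝ) * (2 * (Real.sqrt (D.sl s.1).θ * D.d) / D.m0 +
        (Real.log D.d) ^ 2) + (2 * (Real.sqrt (D.sl s.1).θ * D.d) / D.m0 +
          D.X0 * (Real.log D.d) ^ 2) with hE
  have hm : (0 : ℝ) < D.m0 := by exact_mod_cast hm0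
  have hE0 : 0 ≤ E := by positivity
  rw [← sum_filter]
  set S := ((RS D q).filter (fun s' => rk D s' ≤ rk D s)).filter (fun s' => sm D s s') with hS
  set T : Finset (Fin N × Bool × Bool) := (univ.filter (fun m => SmC D.X s.1 m)) ×ˢ
    (univ : Finset Bool) ×ˢ (univ : Finset Bool) with hT
  have hmaps : ∀ s' ∈ S, (s'.1, s'.2.1, s'.2.2.1) ∈ T := by
    intro s' hs'
    simp only [hT, mem_product, mem_filter, mem_univ, true_and, and_true]
    exact (mem_filter.1 hs').2.2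
  rw [← sum_fiberwise_of_maps_to hmaps]
  have hfib : ∀ t ∈ T, ∑ s' ∈ S.filter (fun s' => (s'.1, s'.2.1, s'.2.2.1) = t), wt D s s' ≤ E := by
    intro t _
    rcases (S.filter (fun s' => (s'.1, s'.2.1, s'.2.2.1) = t)).eq_empty_or_nonempty with he | ⟨s0, hs0⟩
    · rw [he]; simpa using hE0
    · have hs0' := mem_filter.1 hs0
      have hs01 := mem_filter.1 hs0'.1
      have hs02 := mem_filter.1 hs01.1
      have hwt : ∀ s' ∈ S.filter (fun s' => (s'.1, s'.2.1, s'.2.2.1) = t), wt D s s' = wt D s s0 := by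
        intro s' hs'
        have a1 := mem_filter.1 hs'
        have a2 := (mem_filter.1 a1.1).2
        have e : (s'.1, s'.2.1, s'.2.2.1) = (s0.1, s0.2.1, s0.2.2.1) := a1.2.trans hs0'.2.symm
        simp only [Prod.mk.injEq] at e
        obtain ⟨e1, e2, e3⟩ := e
        have e4 : s'.2.2.2.1 = s0.2.2.2.1 := a2.1.symm.trans hs01.2.1
        unfold wt kcs nds
        rw [e1, e2, e3, e4]
      rw [sum_congr rfl hwt, sum_const, nsmul_eq_mul]
      have hcard : ((S.filter (fun s' => (s'.1, s'.2.1, s'.2.2.1) = t)).card : ℝ) ≤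
          (q s0.1 s0.2.1 s0.2.2.1 s0.2.2.2.1 : ℝ) := by
        norm_cast
        rw [← card_range (q s0.1 s0.2.1 s0.2.2.1 s0.2.2.2.1)]
        refine card_le_card_of_injOn (fun s' => s'.2.2.2.2) ?_ ?_
        · intro s' hs'
          have a1 := mem_filter.1 (mem_coe.1 hs')
          have a3 := mem_filter.1 a1.1
          have a4 := (mem_RS hq).1 (mem_filter.1 a3.1).1
          have e : (s'.1, s'.2.1, s'.2.2.1) = (s0.1, s0.2.1, s0.2.2.1) := a1.2.trans hs0'.2.symm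
          simp only [Prod.mk.injEq] at e
          obtain ⟨e1, e2, e3⟩ := e
          have e4 : s'.2.2.2.1 = s0.2.2.2.1 := a3.2.1.symm.trans hs01.2.1
          have := a4.2.2.1
          rw [e1, e2, e3, e4] at this
          simpa using this
        · intro s1 h1 s2 h2 he
          have a1 := mem_filter.1 (mem_coe.1 h1)
          have b1 := mem_filter.1 (mem_coe.1 h2)
          have a3 := mem_filter.1 a1.1
          have b3 := mem_filter.1 b1.1
          have e : (s1.1, s1.2.1, s1.2.2.1) = (s2.1, s2.2.1, s2.2.2.1) := a1.2.trans b1.2.symm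
          simp only [Prod.mk.injEq] at e
          obtain ⟨e1, e2, e3⟩ := e
          have e4 : s1.2.2.2.1 = s2.2.2.2.1 := a3.2.1.symm.trans b3.2.1
          exact Prod.ext e1 (Prod.ext e2 (Prod.ext e3 (Prod.ext e4 he)))
      refine le_trans (mul_le_mul_of_nonneg_right hcard (wt0 D s s0)) ?_
      exact fib h hq hm0 s0 hs02.1 hs02.2
  have hTc : (T.card : ℝ) ≤ 4 * k.M := by
    obtain ⟨v0, hv0⟩ := hne
    have hv1 := mem_pV.1 hv0
    have h1 : T.card = (univ.filter (fun m => SmC D.X s.1 m)).card * 4 := by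
      rw [hT]; simp [card_product]
    have h2 := cl_card h hv1.1 hv1.2
    rw [h1]
    have : (univ.filter (fun m => SmC D.X s.1 m)).card * 4 ≤ 4 * k.M := by omega
    exact_mod_cast this
  calc ∑ t ∈ T, ∑ s' ∈ S.filter (fun s' => (s'.1, s'.2.1, s'.2.2.1) = t), wt D s s'
      ≤ ∑ t ∈ T, E := sum_le_sum hfib
    _ = T.card * E := by rw [sum_const, nsmul_eq_mul]
    _ ≤ 4 * k.M * E := mul_le_mul_of_nonneg_right hTc hE0

end Pool.Agent.Work.MP_db9399_oc_helper34
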