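import Pool.Agent.Work.MP_db9399_oc_helper34.Greedy

/-!
# MP_db9399, OCB4, block GRD: the sums (helper34)
-/

set_option autoImplicit false

namespace Pool.Agent.Work.MP_db9399_oc_helper34

open Finset Classical
open Pool.Agent.Work.MP_db9399_all (nb)
open Pool.Agent.Work.MP_db9399_lt (us)
open Pool.Agent.Work.MP_db9399_da hiding qV
open Pool.Agent.Work.MP_db9399_xf
open Pool.Agent.Work.MP_db9399_x4
open Pool.Agent.Work.MP_db9399_oc

universe u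

/-- slots: piece, side, part, colour, index -/
abbrev Sx (N : ℕ) : Type := Fin N × Bool × Bool × ℕ × ℕ

variable {V : Type u} [Fintype V] {N J : ℕ} (D : OD V N J)

/-- class of a slot -/
noncomputable def kcs (s : Sx N) : ℕ := D.kc s.1 s.2.1 s.2.2.1 s.2.2.2.1

/-- block of a slot -/
def sgs (σ : Fin N → Bool → Bool → ℕ → ℕ → ℕ) (s : Sx N) : ℕ :=
  σ s.1 s.2.1 s.2.2.1 s.2.2.2.1 s.2.2.2.2

/-- need of a slot -/
noncomputable def nds (s : Sx N) : ℕ := D.nd s.1 s.2.1 s.2.2.2.1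

/-- all slots -/
noncomputable def RS (q : Fin N → Bool → Bool → ℕ → ℕ) : Finset (Sx N) :=
  ((univ : Finset (Fin N)) ×ˢ (univ : Finset Bool) ×ˢ (univ : Finset Bool) ×ˢ
    range (D.d + 2) ×ˢ range D.Bq).filter (fun s => D.X.P.ty s.1 = Ty.B ∧
      s.2.2.2.2 < q s.1 s.2.1 s.2.2.1 s.2.2.2.1 ∧ kcs D s ≠ 4)

/-- rank of a slot -/
noncomputable def rk (s : Sx N) : ℕ :=
  if kcs D s = 1 then 2 else if s.2.2.2.1 ∈ D.Spc s.1 then 0 else 1

/-- candidates -/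
noncomputable def AS (U : Finset V) (cR : V → ℕ) (q : Fin N → Bool → Bool → ℕ → ℕ)
    (rg τ : V → ℕ) (σ : Fin N → Bool → Bool → ℕ → ℕ → ℕ) (s : Sx N) : Finset V :=
  (D.Av U cR s.1 s.2.1 s.2.2.1 s.2.2.2.1).filter (fun v => rg v = kcs D s ∧ τ v = sgs σ s ∧
    ¬ D.PotN q τ σ v s.2.2.2.1)

/-- conflicts -/
def CF (s : Sx N) (v : V) (s' : Sx N) (v' : V) : Prop :=
  (s.1 = s'.1 ∧ s.2.1 = s'.2.1 ∧ s.2.2.1 = s'.2.2.1 ∧ v = v') ∨
    (s.2.2.2.1 = s'.2.2.2.1 ∧ Te D.G D.X v v' ∧ D.X.cq v = D.X.cq v')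

/-- same quarter, class and block -/
def sq (σ : Fin N → Bool → Bool → ℕ → ℕ → ℕ) (s s' : Sx N) : Prop :=
  s.1 = s'.1 ∧ s.2.1 = s'.2.1 ∧ s.2.2.1 = s'.2.2.1 ∧ kcs D s = kcs D s' ∧ sgs σ s = sgs σ s'

/-- same colour and cluster -/
def sm (s s' : Sx N) : Prop := s.2.2.2.1 = s'.2.2.2.1 ∧ SmC D.X s.1 s'.1

/-- bound for the vertices blocked by an earlier slot in the same cluster -/
noncomputable def wt (s s' : Sx N) : ℝ :=
  (if kcs D s = 1 ∧ kcs D s' = 1 then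
    2 * (Real.sqrt (D.sl s.1).θ * D.d / ((nds D s' : ℝ) + nds D s)) / D.m0
  else 2 * (Real.sqrt (D.sl s.1).θ * D.d) / D.m0) + (Real.log D.d) ^ 2

/-- bound for the blocked vertices -/
noncomputable def bl (σ : Fin N → Bool → Bool → ℕ → ℕ → ℕ) (s s' : Sx N) : ℝ :=
  (if sq D σ s s' then 1 else 0) + (if sm D s s' then wt D s s' else 0)

theorem wt0 (s s' : Sx N) : 0 ≤ wt D s s' := by
  unfold wt
  split_ifs <;> positivity

theorem bl0 (σ : Fin N → Bool → Bool → ℕ → ℕ → ℕ) (s s' : Sx N) : 0 ≤ bl D σ s s' := by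
  unfold bl
  have := wt0 D s s'
  split_ifs <;> linarith

theorem CF_symm (s : Sx N) (v : V) (s' : Sx N) (v' : V) (h : CF D s v s' v') :
    CF D s' v' s v := by
  rcases h with ⟨h1, h2, h3, h4⟩ | ⟨h1, h2, h3⟩
  · exact Or.inl ⟨h1.symm, h2.symm, h3.symm, h4.symm⟩
  · exact Or.inr ⟨h1.symm, ⟨h2.1.symm, h2.2.2, h2.2.1⟩, h3.symm⟩

theorem kc_one {n : Fin N} {β i : Bool} {b : ℕ} (h : D.kc n β i b = 1) :
    b ∈ D.P n ∧ D.X1 < D.nd n β b ∧ D.nd n β b ≤ D.X0 := by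
  unfold OD.kc at h
  split_ifs at h with h1 h2 h3 h4 h5 <;> simp_all

variable {D}
variable {q : Fin N → Bool → Bool → ℕ → ℕ}

theorem q_le (hq : D.Dem q) {n : Fin N} {β i : Bool} {b : ℕ} (h : D.kc n β i b ≠ 4) :
    q n β i b ≤ D.Bq := by
  unfold OD.Bq
  by_cases h1 : D.kc n β i b = 1
  · have := hq.q1 n β i b h1
    omega
  · have := hq.q3 n β i b h1 h
    omega

theorem mem_RS (hq : D.Dem q) {s : Sx N} : s ∈ RS D q ↔ D.X.P.ty s.1 = Ty.B ∧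
    s.2.2.2.1 < D.d + 2 ∧ s.2.2.2.2 < q s.1 s.2.1 s.2.2.1 s.2.2.2.1 ∧ kcs D s ≠ 4 := by
  unfold RS
  simp only [mem_filter, mem_product, mem_univ, true_and, mem_range]
  constructor
  · rintro ⟨⟨h1, h2⟩, h3, h4, h5⟩
    exact ⟨h3, h1, h4, h5⟩
  · rintro ⟨h3, h1, h4, h5⟩
    exact ⟨⟨h1, lt_of_lt_of_le h4 (q_le hq h5)⟩, h3, h4, h5⟩

theorem kc_cases (hq : D.Dem q) {s : Sx N} (hs : s ∈ RS D q) :
    kcs D s = 1 ∨ kcs D s = 2 ∨ kcs D s = 3 := by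
  obtain ⟨h1, h2, h3, h4⟩ := (mem_RS hq).1 hs
  have hP : s.2.2.2.1 ∉ D.Qn s.1 s.2.2.1 := by
    intro hb
    have := hq.pz s.1 s.2.1 s.2.2.1 s.2.2.2.1 (Or.inr (Or.inr hb))
    omega
  revert h4
  unfold kcs OD.kc
  split_ifs with e1 e2 e3 e4 e5
  · exact fun _ => Or.inr (Or.inl rfl)
  · exact fun _ => Or.inr (Or.inr rfl)
  · exact fun _ => Or.inr (Or.inr rfl)
  · exact fun _ => Or.inl rfl
  · exact fun h => absurd rfl h
  · exfalso
    apply e3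
    unfold OD.P P1
    simp only [mem_sdiff, mem_range, mem_union, not_or]
    refine ⟨h2, ⟨?_, ?_⟩, e2⟩
    · cases hi : s.2.2.1 with
      | false => rw [hi] at hP; exact hP
      | true => rw [hi] at e1; exact e1
    · cases hi : s.2.2.1 with
      | false => rw [hi] at e1; exact e1
      | true => rw [hi] at hP; exact hP

/-- the slots of the same quarter, class and block -/
theorem suma (hq : D.Dem q) (σ : Fin N → Bool → Bool → ℕ → ℕ → ℕ) (s : Sx N) (B : Finset ℕ)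
    (hB : ∀ s' ∈ RS D q, rk D s' ≤ rk D s → sq D σ s s' → s'.2.2.2.1 ∈ B) :
    ∑ s' ∈ (RS D q).filter (fun s' => rk D s' ≤ rk D s), (if sq D σ s s' then (1 : ℝ) else 0) ≤
      (nsl q σ s.1 s.2.1 s.2.2.1 B (sgs σ s) : ℝ) := by
  rw [← sum_filter, sum_const, nsmul_eq_mul, mul_one]
  norm_cast
  unfold nsl
  rw [← card_sigma]
  refine card_le_card_of_injOn (fun s' => (⟨s'.2.2.2.1, s'.2.2.2.2⟩ : (_ : ℕ) × ℕ)) ?_ ?_
  · intro s' hs'
    have hs2 := mem_filter.1 (mem_coe.1 hs')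
    have hs3 := mem_filter.1 hs2.1
    obtain ⟨h1, h2, h3, h4⟩ := (mem_RS hq).1 hs3.1
    have hsq := hs2.2
    have hb := hB s' hs3.1 hs3.2 hsq
    obtain ⟨e1, e2, e3, e4, e5⟩ := hsq
    simp only [mem_coe, mem_sigma, mem_filter, mem_range]
    refine ⟨hb, ?_, ?_⟩
    · rw [e1, e2, e3]; exact h3
    · rw [e5]; unfold sgs; rw [e1, e2, e3]
  · intro s1 h1 s2 h2 he
    have a1 := (mem_filter.1 (mem_coe.1 h1)).2
    have a2 := (mem_filter.1 (mem_coe.1 h2)).2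
    obtain ⟨e1, e2, e3, -, -⟩ := a1
    obtain ⟨f1, f2, f3, -, -⟩ := a2
    simp only [Sigma.mk.injEq, heq_eq_eq] at he
    obtain ⟨g1, g2⟩ := he
    refine Prod.ext (e1.symm.trans f1) (Prod.ext (e2.symm.trans f2) (Prod.ext (e3.symm.trans f3)
      (Prod.ext g1 g2)))

end Pool.Agent.Work.MP_db9399_oc_helper34
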